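import Mathlib
import Pool.Agent.H93.Gam3

namespace Pool.Agent.Results.MP_d84bc5_an.LineSum

/-- The simultaneous packing and covering constant. -/
noncomputable def gamma (X : Type) [NormedAddCommGroup X] : ℝ :=
  sInf {ρ : ℝ | ∃ D : Set X,
    (∀ x ∈ D, ∀ y ∈ D, x ≠ y → 2 ≤ ‖x - y‖) ∧ ∀ x, ∃ d ∈ D, ‖x - d‖ ≤ ρ}

/-- The lattice simultaneous packing and covering constant. -/
noncomputable def gammaStar (X : Type) [NormedAddCommGroup X] : ℝ :=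
  sInf {ρ : ℝ | ∃ D : AddSubgroup X,
    (∀ x ∈ D, ∀ y ∈ D, x ≠ y → 2 ≤ ‖x - y‖) ∧ ∀ x, ∃ d ∈ D, ‖x - d‖ ≤ ρ}

theorem result : gamma (WithLp 2 (lp (fun _ : ℕ => ℝ) 1 × ℝ)) = 2 / Real.sqrt 3 ∧
    gammaStar (WithLp 2 (lp (fun _ : ℕ => ℝ) 1 × ℝ)) = 2 / Real.sqrt 3 := by
  obtain ⟨L, h1, h2⟩ := Pool.Agent.H93.Gam3.upper
  have hs : ∀ x ∈ L, ∀ y ∈ L, x ≠ y → 2 ≤ ‖x - y‖ := fun x hx y hy hxy =>
    h1 _ (sub_mem hx hy) (sub_ne_zero.2 hxy)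
  have he : ‖(lp.single 1 0 (1 : ℝ) : lp (fun _ : ℕ => ℝ) 1)‖ = 1 := by
    rw [lp.norm_single (by norm_num)]; simp
  constructor
  · refine csInf_eq_of_forall_ge_of_forall_gt_exists_lt ⟨_, L, hs, h2 1 one_pos⟩ ?_ fun w hw =>
      ⟨_, ⟨L, hs, h2 ((w - 2 / Real.sqrt 3) / 2) (by linarith)⟩, by linarith⟩
    rintro r ⟨D, a, b⟩
    exact Pool.Agent.H93.Gam3.lower he a b
  · refine csInf_eq_of_forall_ge_of_forall_gt_exists_lt ⟨_, L, hs, h2 1 one_pos⟩ ?_ fun w hw =>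
      ⟨_, ⟨L, hs, h2 ((w - 2 / Real.sqrt 3) / 2) (by linarith)⟩, by linarith⟩
    rintro r ⟨D, a, b⟩
    exact Pool.Agent.H93.Gam3.lower (P := D) he a b

end Pool.Agent.Results.MP_d84bc5_an.LineSum
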